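import Mathlib

/-! Integers `S` such that `n d ^ 2` lies shortly above `S ^ 2` are sparse. -/

namespace Pool.Agent.TH442.NM

/-- some `n e ^ 2` lies strictly above `S ^ 2` and below `S ^ 2 + K` -/
def Exc (n K S : ℕ) : Prop := ∃ e : ℕ, S ^ 2 < n * e ^ 2 ∧ n * e ^ 2 < S ^ 2 + K

theorem gap {n K X S S' : ℕ} (hn : ¬ IsSquare n) (hK : 1 ≤ K) (hX : K ≤ X) (hXS : X ≤ S)
    (hSS : S < S') (hS : Exc n K S) (hS' : Exc n K S') : X / K ≤ S' - S := by
  obtain ⟨e, he1, he2⟩ := hS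
  obtain ⟨e', he1', he2'⟩ := hS'
  obtain ⟨p, hp⟩ : ∃ p, S' = S + p := ⟨S' - S, by omega⟩
  have hp1 : 1 ≤ p := by omega
  obtain ⟨s, hs⟩ : ∃ s, s = √(n : ℝ) := ⟨_, rfl⟩
  have hss : s * s = n := by rw [hs]; exact Real.mul_self_sqrt (Nat.cast_nonneg n)
  have hs0 : 0 ≤ s := by rw [hs]; exact Real.sqrt_nonneg _
  have hXR : (1 : ℝ) ≤ X := by exact_mod_cast hK.trans hX
  have hXSR : (X : ℝ) ≤ S := by exact_mod_cast hXS
  have hKR : (1 : ℝ) ≤ K := by exact_mod_cast hK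
  have hKX : (K : ℝ) ≤ X := by exact_mod_cast hX
  have hpR : (1 : ℝ) ≤ p := by exact_mod_cast hp1
  have key : ∀ (a b : ℕ), (X : ℝ) ≤ a → a ^ 2 < n * b ^ 2 → n * b ^ 2 < a ^ 2 + K →
      0 < s * b - a ∧ 2 * X * (s * b - a) < K := by
    intro a b ha h1 h2
    have h1' : (a : ℝ) ^ 2 < (s * b) ^ 2 := by
      have : (a : ℝ) ^ 2 < n * (b : ℝ) ^ 2 := by exact_mod_cast h1
      calc (a : ℝ) ^ 2 < n * (b : ℝ) ^ 2 := this
        _ = (s * b) ^ 2 := by rw [← hss]; ring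
    have h2' : (s * b) ^ 2 < (a : ℝ) ^ 2 + K := by
      have : (n : ℝ) * (b : ℝ) ^ 2 < (a : ℝ) ^ 2 + K := by exact_mod_cast h2
      calc (s * b) ^ 2 = n * (b : ℝ) ^ 2 := by rw [← hss]; ring
        _ < _ := this
    have hsb : 0 ≤ s * b := mul_nonneg hs0 (Nat.cast_nonneg b)
    have h3 : (a : ℝ) < s * b := lt_of_pow_lt_pow_left₀ 2 hsb h1'
    refine ⟨by linarith, ?_⟩
    nlinarith
  obtain ⟨k1, k2⟩ := key S e hXSR he1 he2
  obtain ⟨k3, k4⟩ := key S' e' (by rw [hp]; push_cast; linarith) he1' he2'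
  obtain ⟨δ, hδ⟩ : ∃ δ : ℝ, δ = s * ((e' : ℝ) - e) - p := ⟨_, rfl⟩
  have hδ' : δ = (s * e' - S') - (s * e - S) := by rw [hδ, hp]; push_cast; ring
  have hd1 : 2 * X * δ < K := by rw [hδ']; nlinarith
  have hd2 : -K < 2 * X * δ := by rw [hδ']; nlinarith
  -- the nonzero integer
  have hne : (n : ℤ) * ((e' : ℤ) - e) ^ 2 ≠ (p : ℤ) ^ 2 := by
    intro h
    apply hn
    have h1 : (n : ℤ) * (((e' : ℤ) - e).natAbs : ℤ) ^ 2 = (p : ℤ) ^ 2 := by
      rw [Int.natCast_natAbs, sq_abs]; exact h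
    have h2 : n * ((e' : ℤ) - e).natAbs ^ 2 = p ^ 2 := by exact_mod_cast h1
    obtain ⟨q, hq⟩ : ∃ q, q = ((e' : ℤ) - e).natAbs := ⟨_, rfl⟩
    rw [← hq] at h2
    have hq0 : 0 < q := by
      rcases Nat.eq_zero_or_pos q with h | h
      · rw [h] at h2
        have : 0 < p ^ 2 := by positivity
        simp at h2
        omega
      · exact h
    have h3 : q ∣ p := by
      have : q ^ 2 ∣ p ^ 2 := ⟨n, by rw [← h2]; ring⟩
      exact (Nat.pow_dvd_pow_iff (by norm_num)).1 this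
    obtain ⟨k, hk⟩ := h3
    refine ⟨k, ?_⟩
    have h5 : q ^ 2 * n = q ^ 2 * (k * k) := by
      rw [mul_comm, h2, hk]; ring
    exact Nat.eq_of_mul_eq_mul_left (by positivity) h5
  have h1 : (1 : ℝ) ≤ |(n : ℝ) * ((e' : ℝ) - e) ^ 2 - (p : ℝ) ^ 2| := by
    have h2 : (1 : ℤ) ≤ |(n : ℤ) * ((e' : ℤ) - e) ^ 2 - (p : ℤ) ^ 2| :=
      Int.one_le_abs (sub_ne_zero.2 hne)
    exact_mod_cast h2
  have h2 : (n : ℝ) * ((e' : ℝ) - e) ^ 2 - (p : ℝ) ^ 2 = δ * (2 * p + δ) := by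
    rw [hδ, ← hss]; ring
  rw [h2, abs_mul] at h1
  have ha : 2 * X * |δ| ≤ K := by
    rcases abs_cases δ with ⟨h, -⟩ | ⟨h, -⟩ <;> rw [h] <;> linarith
  have hb : |2 * p + δ| ≤ 2 * p + |δ| := by
    calc |2 * p + δ| ≤ |2 * (p : ℝ)| + |δ| := abs_add_le _ _
      _ = 2 * p + |δ| := by rw [abs_of_nonneg (by positivity)]
  have hδ0 : 0 ≤ |δ| := abs_nonneg δ
  have hc : 1 ≤ |δ| * (2 * p + |δ|) := h1.trans (mul_le_mul_of_nonneg_left hb hδ0)
  -- 4 X² ≤ 4 K X p + K²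
  have hd : 4 * (X : ℝ) ^ 2 ≤ 4 * K * X * p + K ^ 2 := by
    have h3 : 4 * (X : ℝ) ^ 2 * 1 ≤ 4 * (X : ℝ) ^ 2 * (|δ| * (2 * p + |δ|)) :=
      mul_le_mul_of_nonneg_left hc (by positivity)
    have h4 : 4 * (X : ℝ) ^ 2 * (|δ| * (2 * p + |δ|)) =
        (2 * X * |δ|) * (4 * X * p) + (2 * X * |δ|) ^ 2 := by ring
    have h5 : (2 * X * |δ|) * (4 * X * p) ≤ K * (4 * X * p) :=
      mul_le_mul_of_nonneg_right ha (by positivity)
    have h6 : (2 * X * |δ|) ^ 2 ≤ (K : ℝ) ^ 2 := pow_le_pow_left₀ (by positivity) ha 2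
    rw [h4] at h3
    linarith
  have he : (X : ℝ) < K * (p + 1) := by
    by_contra hcon
    push Not at hcon
    nlinarith
  have hf : X < K * (p + 1) := by exact_mod_cast he
  have hg : X / K < p + 1 := Nat.div_lt_of_lt_mul hf
  rw [hp]
  omega

/-- **Sparseness**: at most `2 K + 2` exceptional numbers in every interval `[X, 2 X)`. -/
theorem exc_card (n K X : ℕ) : ({S | Exc n K S} ∩ Set.Ico X (2 * X)).ncard ≤ 2 * K + 2 := by
  classical
  have hfin : (Set.Ico X (2 * X)).Finite := Set.finite_Ico _ _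
  rcases lt_or_ge X K with hXK | hXK
  · calc ({S | Exc n K S} ∩ Set.Ico X (2 * X)).ncard
        ≤ (Set.Ico X (2 * X)).ncard := Set.ncard_le_ncard Set.inter_subset_right hfin
      _ = X := by
          rw [Set.ncard_eq_toFinset_card', Set.toFinset_Ico, Nat.card_Ico]; omega
      _ ≤ 2 * K + 2 := by omega
  rcases Nat.eq_zero_or_pos K with hK | hK
  · have : ({S | Exc n K S} ∩ Set.Ico X (2 * X)) = ∅ := by
      ext S
      simp only [Set.mem_inter_iff, Set.mem_setOf_eq, Set.mem_empty_iff_false, iff_false, not_and]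
      rintro ⟨e, h1, h2⟩
      omega
    rw [this]
    simp
  by_cases hsq : IsSquare n
  · obtain ⟨k, hk⟩ := hsq
    have hsub : ({S | Exc n K S} ∩ Set.Ico X (2 * X)) ⊆ Set.Iio K := by
      rintro S ⟨⟨e, h1, h2⟩, -⟩
      have e1 : n * e ^ 2 = (k * e) ^ 2 := by rw [hk]; ring
      rw [e1] at h1 h2
      have h3 : S < k * e := lt_of_pow_lt_pow_left₀ 2 (Nat.zero_le _) h1
      show S < K
      nlinarith
    calc ({S | Exc n K S} ∩ Set.Ico X (2 * X)).ncard ≤ (Set.Iio K).ncard :=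
          Set.ncard_le_ncard hsub (Set.finite_Iio _)
      _ = K := by
          rw [Set.ncard_eq_toFinset_card', Set.toFinset_Iio, Nat.card_Iio]
      _ ≤ 2 * K + 2 := by omega
  · obtain ⟨g, hg⟩ : ∃ g, g = X / K := ⟨_, rfl⟩
    have hg1 : 1 ≤ g := by rw [hg]; exact (Nat.one_le_div_iff hK).2 hXK
    have hXg : X < K * (g + 1) := by
      rw [hg]; exact Nat.lt_mul_div_succ X hK
    have hinj : Set.InjOn (fun S => S / g) ({S | Exc n K S} ∩ Set.Ico X (2 * X)) := by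
      rintro S ⟨hS, hS1⟩ S' ⟨hS', hS1'⟩ heq
      simp only at heq
      have main : ∀ {A B : ℕ}, Exc n K A → Exc n K B → X ≤ A → A < B → A / g = B / g → False := by
        intro A B hA hB hXA hAB hdiv
        have h1 := gap hsq hK hXK hXA hAB hA hB
        rw [← hg] at h1
        have h2 : A / g + 1 ≤ B / g := by
          rw [← Nat.add_div_right A (by omega : 0 < g)]
          exact Nat.div_le_div_right (by omega)
        omega
      rcases lt_trichotomy S S' with h | h | h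
      · exact (main hS hS' hS1.1 h heq).elim
      · exact h
      · exact (main hS' hS hS1'.1 h heq.symm).elim
    have himg : (fun S => S / g) '' ({S | Exc n K S} ∩ Set.Ico X (2 * X)) ⊆
        Set.Ico (X / g) (X / g + (2 * K + 1)) := by
      rintro _ ⟨S, ⟨-, hS1, hS2⟩, rfl⟩
      refine ⟨Nat.div_le_div_right hS1, ?_⟩
      show S / g < X / g + (2 * K + 1)
      have h1 : X < (X / g + 1) * g := by
        rw [mul_comm]; exact Nat.lt_mul_div_succ X (by omega : 0 < g)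
      have h2 : X ≤ 2 * K * g := by nlinarith
      have h3 : S < (X / g + (2 * K + 1)) * g := by nlinarith
      exact (Nat.div_lt_iff_lt_mul (by omega : 0 < g)).2 h3
    calc ({S | Exc n K S} ∩ Set.Ico X (2 * X)).ncard
        = ((fun S => S / g) '' ({S | Exc n K S} ∩ Set.Ico X (2 * X))).ncard :=
          (Set.ncard_image_of_injOn hinj).symm
      _ ≤ (Set.Ico (X / g) (X / g + (2 * K + 1))).ncard :=
          Set.ncard_le_ncard himg (Set.finite_Ico _ _)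
      _ = 2 * K + 1 := by
          rw [Set.ncard_eq_toFinset_card', Set.toFinset_Ico, Nat.card_Ico]; omega
      _ ≤ 2 * K + 2 := by omega

end Pool.Agent.TH442.NM
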