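import Pool.Agent.TH142.NU.Main
import Pool.Agent.TH885.NW.Exp2
import Pool.Agent.TH442.NM.Pell

/-! Self-intersection of effective classes with nearly equal multiplicities. -/

namespace Pool.Agent.TH442.NM

open Finset Pool.Agent.H932R3 Pool.Agent.TH142.NU Pool.Agent.TH885.NW

/-- the homogeneous ideal of the point `(p 0 : p 1 : 1)` -/
noncomputable def ptI (p : Fin 2 → ℂ) : Ideal (MvPolynomial (Fin 3) ℂ) :=
  Ideal.span ({MvPolynomial.X 0 - MvPolynomial.C (p 0) * MvPolynomial.X 2,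
          MvPolynomial.X 1 - MvPolynomial.C (p 1) * MvPolynomial.X 2} :
            Set (MvPolynomial (Fin 3) ℂ))

/-- the spread: `∑_T (μ i - S / n) ^ 2 + ∑_{not T} μ i ^ 2` -/
noncomputable def spr {s : ℕ} (T : Finset (Fin s)) (μ : Fin s → ℕ) : ℝ :=
  ∑ i ∈ T, ((μ i : ℝ) - (∑ i ∈ T, (μ i : ℝ)) / T.card) ^ 2 + ∑ i ∈ Tᶜ, (μ i : ℝ) ^ 2

theorem spr_eq {s : ℕ} (T : Finset (Fin s)) (μ : Fin s → ℕ) (hT : 0 < T.card) :
    spr T μ = ∑ i, (μ i : ℝ) ^ 2 - (∑ i ∈ T, (μ i : ℝ)) ^ 2 / T.card := by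
  unfold spr
  rw [var_eq T μ hT, ← Finset.sum_add_sum_compl T (fun i => (μ i : ℝ) ^ 2)]
  ring

/-- Nagata's inequality for a subset of the points -/
theorem nag {s : ℕ} {P : Fin s → Fin 2 → ℂ}
    (hind : AlgebraicIndependent ℚ (fun q : Fin s × Fin 2 => P q.1 q.2))
    {d : ℕ} {μ : Fin s → ℕ} {F : MvPolynomial (Fin 3) ℂ} (hF : F ≠ 0) (hFd : F.IsHomogeneous d)
    (hm : ∀ i, F ∈ ptI (P i) ^ (μ i)) (T : Finset (Fin s)) (hT : 10 ≤ T.card)
    (hS : 0 < ∑ i ∈ T, μ i) : (∑ i ∈ T, μ i) ^ 2 < T.card * d ^ 2 := by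
  have h := (main hind hF hFd hm T hT).1 (by exact_mod_cast hS)
  have hn0 : (0 : ℝ) < T.card := by
    have : 0 < T.card := by omega
    exact_mod_cast this
  have h1 := spr_eq T μ (by omega)
  unfold spr at h1
  have h2 : (∑ i ∈ T, (μ i : ℝ)) ^ 2 / T.card < (d : ℝ) ^ 2 := by linarith
  rw [div_lt_iff₀ hn0] at h2
  have h3 : (((∑ i ∈ T, μ i) ^ 2 : ℕ) : ℝ) < ((T.card * d ^ 2 : ℕ) : ℝ) := by
    push_cast
    linarith
  exact_mod_cast h3

/-- **Bounded spread**: `C ^ 2 ≥ 0` unless the sum of the multiplicities is exceptional. -/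
theorem bounded {s : ℕ} {P : Fin s → Fin 2 → ℂ}
    (hind : AlgebraicIndependent ℚ (fun q : Fin s × Fin 2 => P q.1 q.2))
    {d : ℕ} {μ : Fin s → ℕ} {F : MvPolynomial (Fin 3) ℂ} (hF : F ≠ 0) (hFd : F.IsHomogeneous d)
    (hm : ∀ i, F ∈ ptI (P i) ^ (μ i)) (T : Finset (Fin s)) (hT : 10 ≤ T.card)
    (hS : 0 < ∑ i ∈ T, μ i) {K : ℕ} (hK : spr T μ ≤ K)
    (hE : ¬ Exc T.card (T.card * (K - 1) + 1) (∑ i ∈ T, μ i)) : ∑ i, (μ i) ^ 2 ≤ d ^ 2 := by
  by_contra hcon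
  push Not at hcon
  have h1 := nag hind hF hFd hm T hT hS
  apply hE
  refine ⟨d, h1, ?_⟩
  have hn0 : (0 : ℝ) < T.card := by
    have : 0 < T.card := by omega
    exact_mod_cast this
  rw [spr_eq T μ (by omega)] at hK
  obtain ⟨S, hSd⟩ : ∃ S, S = ∑ i ∈ T, μ i := ⟨_, rfl⟩
  obtain ⟨Q, hQd⟩ : ∃ Q, Q = ∑ i, (μ i) ^ 2 := ⟨_, rfl⟩
  have eS : (∑ i ∈ T, (μ i : ℝ)) = S := by rw [hSd]; push_cast; rfl
  have eQ : (∑ i, (μ i : ℝ) ^ 2) = Q := by rw [hQd]; push_cast; rfl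
  rw [eS, eQ] at hK
  rw [← hSd] at h1 ⊢
  rw [← hQd] at hcon
  have h2 : (T.card : ℝ) * Q ≤ S ^ 2 + T.card * K := by
    have h3 : (Q : ℝ) ≤ S ^ 2 / T.card + K := by linarith
    have h4 := mul_le_mul_of_nonneg_left h3 hn0.le
    rw [mul_add, mul_div_cancel₀ _ hn0.ne'] at h4
    exact h4
  have h3 : T.card * Q ≤ S ^ 2 + T.card * K := by exact_mod_cast h2
  have h4 : T.card * (d ^ 2 + 1) ≤ T.card * Q := Nat.mul_le_mul_left _ hcon
  rcases Nat.eq_zero_or_pos K with h0 | h0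
  · subst h0
    simp only [mul_zero, add_zero] at h3
    have : 0 < T.card := by omega
    nlinarith
  · obtain ⟨k, rfl⟩ : ∃ k, K = k + 1 := ⟨K - 1, by omega⟩
    rw [Nat.add_sub_cancel]
    rw [mul_add, mul_one] at h4 h3
    omega

/-- **The window bound**, sharp constants. -/
theorem window {s : ℕ} {P : Fin s → Fin 2 → ℂ}
    (hind : AlgebraicIndependent ℚ (fun q : Fin s × Fin 2 => P q.1 q.2))
    {d : ℕ} {μ : Fin s → ℕ} {F : MvPolynomial (Fin 3) ℂ} (hF : F ≠ 0) (hFd : F.IsHomogeneous d)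
    (hm : ∀ i, F ∈ ptI (P i) ^ (μ i)) (T : Finset (Fin s)) (hT : 18 ≤ T.card)
    (hS : (T.card : ℝ) * ((T.card : ℝ) / 2 - 11 / 6 * √(T.card : ℝ) + 2) ≤ ∑ i ∈ T, (μ i : ℝ)) :
    (1 - 11 / (3 * √(T.card : ℝ)) - 9 / (4 * (T.card : ℝ))) * ∑ i ∈ T, (μ i : ℝ) - spr T μ <
        (d : ℝ) ^ 2 - ∑ i, (μ i : ℝ) ^ 2 := by
  classical
  obtain ⟨j, hj, hjT, hsum⟩ := on_T hind T
  obtain ⟨S, hSd⟩ : ∃ S, S = ∑ i ∈ T, (μ i : ℝ) := ⟨_, rfl⟩
  obtain ⟨r, hr⟩ : ∃ r, r = √(T.card : ℝ) := ⟨_, rfl⟩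
  have hn18 : (18 : ℝ) ≤ T.card := by exact_mod_cast hT
  have hn0 : (0 : ℝ) < T.card := by linarith
  have hrr : r * r = T.card := by rw [hr]; exact Real.mul_self_sqrt hn0.le
  have hr18 : 4.24 ≤ r := by rw [hr]; exact Real.le_sqrt_of_sq_le (by norm_num; linarith)
  have hr0 : 0 < r := by linarith
  have hmT : ∀ a, F ∈ (Ideal.span
      ({MvPolynomial.X 0 - MvPolynomial.C (P (j a) 0) * MvPolynomial.X 2,
          MvPolynomial.X 1 - MvPolynomial.C (P (j a) 1) * MvPolynomial.X 2} :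
            Set (MvPolynomial (Fin 3) ℂ))) ^ (μ (j a)) := fun a => hm (j a)
  obtain ⟨k, hk1, hk2, hk3⟩ := exists_k (by omega : 10 ≤ T.card) (W := S) (by rw [hSd]; exact hS)
  have h1 := exp_degree2 (L := ℂ) (by omega : 10 ≤ T.card) (fun a => μ (j a)) hk1 hk2 (by
      rw [hsum (fun i => (μ i : ℝ)), ← hSd]
      exact hk3) (fun a => P (j a)) hj d F hF hFd hmT
  rw [hsum (fun i => (μ i : ℝ)), ← hSd, ← hr] at h1
  obtain ⟨E, hE⟩ : ∃ E, E = (T.card : ℝ) / 2 - 11 / 6 * r - 9 / 8 := ⟨_, rfl⟩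
  have hE0 : 0 < E := by
    rw [hE]
    have h18 : 18 ≤ r * r := by rw [hrr]; exact hn18
    rw [← hrr]
    nlinarith
  have hS0 : 0 ≤ S := by
    rw [hSd]; exact Finset.sum_nonneg fun i _ => Nat.cast_nonneg _
  have h2 : S + E ≤ r * d := by rw [hE]; linarith
  have h3 : (S + E) ^ 2 ≤ (T.card : ℝ) * (d : ℝ) ^ 2 := by
    have := pow_le_pow_left₀ (by linarith) h2 2
    rw [mul_pow, pow_two r, hrr] at this
    exact this
  have h4 : (1 - 11 / (3 * r) - 9 / (4 * (T.card : ℝ))) = 2 * E / T.card := by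
    rw [hE, ← hrr]
    field_simp
    ring
  have h5 : S ^ 2 / T.card + 2 * E / T.card * S < (d : ℝ) ^ 2 := by
    have e : S ^ 2 / T.card + 2 * E / T.card * S = (S ^ 2 + 2 * E * S) / T.card := by
      field_simp
    rw [e, div_lt_iff₀ hn0]
    nlinarith [pow_pos hE0 2]
  rw [spr_eq T μ (by omega), ← hSd, ← hr, h4]
  linarith

theorem near_arith2 {n m : ℕ} (hn : 18 ≤ n) (hm : 1 ≤ m)
    {w : Fin n → ℕ} (hw : ∀ i, w i = m ∨ w i = m + 1) {d : ℕ}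
    (hcon : d ^ 2 ≤ ∑ i, (w i) ^ 2) :
    (d + 2) * (d + 1) ≤ ∑ i, (w i + 1) * w i ∧
    ((n : ℝ) < 4 * m * (n - 11 / 3 * √(n : ℝ) - 9 / 4) →
      2 * (d : ℝ) + 3 - (√(n : ℝ) + 2 * (∑ i, (w i : ℝ)) / √(n : ℝ)) < - loW n) := by
  have hnR : (18 : ℝ) ≤ n := by exact_mod_cast hn
  have hmR : (1 : ℝ) ≤ m := by exact_mod_cast hm
  obtain ⟨s, hsdef⟩ : ∃ s, s = √(n : ℝ) := ⟨_, rfl⟩
  have hs : s * s = n := by rw [hsdef]; exact Real.mul_self_sqrt (by linarith)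
  have hs4 : 4.24 ≤ s := by rw [hsdef]; exact Real.le_sqrt_of_sq_le (by norm_num; linarith)
  have hs0 : 0 < s := by linarith
  obtain ⟨W, hW⟩ : ∃ W : ℝ, W = ∑ i, (w i : ℝ) := ⟨_, rfl⟩
  obtain ⟨Q, hQ⟩ : ∃ Q : ℝ, Q = ∑ i, (w i : ℝ) ^ 2 := ⟨_, rfl⟩
  have hdQ : (d : ℝ) ^ 2 ≤ Q := by rw [hQ]; exact_mod_cast hcon
  have hWn : (n : ℝ) * m ≤ W := by
    have : (n : ℝ) * m = ∑ _i : Fin n, (m : ℝ) := by simp
    rw [this, hW]
    refine sum_le_sum fun i _ => ?_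
    rcases hw i with h | h <;> rw [h]
    push_cast
    linarith
  have hW0 : 0 < W := by nlinarith
  obtain ⟨b, hb⟩ : ∃ b : ℝ, b = W - n * m := ⟨_, rfl⟩
  have hQb : Q = n * m ^ 2 + (2 * m + 1) * b := by
    have e1 : ∀ i, (w i : ℝ) ^ 2 = m ^ 2 + (2 * m + 1) * ((w i : ℝ) - m) := by
      intro i
      rcases hw i with h | h <;> rw [h]
      · ring
      · push_cast; ring
    rw [hQ, Finset.sum_congr rfl fun i _ => e1 i, Finset.sum_add_distrib, ← Finset.mul_sum,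
      Finset.sum_sub_distrib, ← hW, hb]
    simp
  have hvar : n * Q ≤ W ^ 2 + (n : ℝ) ^ 2 / 4 := by
    have e2 : W = n * m + b := by rw [hb]; ring
    have e3 : W ^ 2 + (n : ℝ) ^ 2 / 4 - n * Q = (b - n / 2) ^ 2 := by
      rw [hQb, e2]; ring
    nlinarith [sq_nonneg (b - (n : ℝ) / 2)]
  have hsd : s * d ≤ W + n / (8 * m) := by
    have h1 : (s * d) ^ 2 ≤ (W + n / (8 * m)) ^ 2 := by
      have h2 : (s * d) ^ 2 ≤ n * Q := by
        rw [mul_pow, pow_two s, hs]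
        exact mul_le_mul_of_nonneg_left hdQ (by linarith)
      have h3 : (n : ℝ) ^ 2 / 4 ≤ 2 * W * (n / (8 * m)) := by
        have e : 2 * W * ((n : ℝ) / (8 * m)) = W * n / (4 * m) := by field_simp; ring
        rw [e, div_le_div_iff₀ (by norm_num) (by positivity)]
        nlinarith
      nlinarith [sq_nonneg ((n : ℝ) / (8 * m))]
    exact (le_abs_self _).trans (abs_le_of_sq_le_sq h1 (by positivity))
  have hn8 : (n : ℝ) / (8 * m) ≤ n / 8 := by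
    apply div_le_div_of_nonneg_left (by linarith) (by norm_num) (by linarith)
  refine ⟨?_, ?_⟩
  · have h1 : s * (3 * d + 2) ≤ s * W := by
      have h2 : (n : ℝ) ≤ W := le_trans (by nlinarith) hWn
      have h3 : 0 ≤ (s - 3) * (W - n) := mul_nonneg (by linarith) (by linarith)
      have h5 : 3 * n / 8 + 2 * s ≤ (s - 3) * (n : ℝ) := by
        rw [← hs]
        nlinarith
      nlinarith
    have h2 : 3 * (d : ℝ) + 2 ≤ W := le_of_mul_le_mul_left h1 hs0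
    have h3 : ((d : ℝ) + 2) * (d + 1) ≤ ∑ i, ((w i : ℝ) + 1) * w i := by
      have e : ∑ i, ((w i : ℝ) + 1) * w i = Q + W := by
        rw [hQ, hW, ← Finset.sum_add_distrib]
        exact Finset.sum_congr rfl fun i _ => by ring
      rw [e]
      nlinarith
    exact_mod_cast h3
  · intro hm5
    refine lt_of_lt_of_le ?_ (neg_le_neg (min_le_right _ _))
    rw [← hsdef] at hm5 ⊢
    rw [← hW]
    have h2 : (2 * (d : ℝ) + 3 - (s + 2 * W / s)) * s < (-(2 / 3 + 9 / (4 * s))) * s := by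
      have e1 : (2 * (d : ℝ) + 3 - (s + 2 * W / s)) * s = 2 * (s * d) + 3 * s - s * s - 2 * W := by
        field_simp
        ring
      have e2 : (-(2 / 3 + 9 / (4 * s))) * s = -(2 / 3 * s) - 9 / 4 := by
        field_simp
        ring
      rw [e1, e2, hs]
      have h3 : (n : ℝ) / (4 * m) < n - 11 / 3 * s - 9 / 4 := by
        rw [div_lt_iff₀ (by positivity)]
        linarith
      have h4 : 2 * ((n : ℝ) / (8 * m)) = n / (4 * m) := by
        field_simp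
        ring
      linarith
    exact lt_of_mul_lt_mul_right h2 hs0.le

/-- near-uniform systems with nonpositive self-intersection are empty -/
theorem near_pos2 {L : Type} [Field L] [CharZero L] {n m : ℕ} (hn : 20 ≤ n) (hm : 1 ≤ m)
    {w : Fin n → ℕ} (hw : ∀ i, w i = m ∨ w i = m + 1) {P : Fin n → Fin 2 → L}
    (hP : AlgebraicIndependent ℚ (fun ij : Fin n × Fin 2 => P ij.1 ij.2)) {d : ℕ}
    {G : MvPolynomial (Fin 3) L} (hG : G ≠ 0) (hGd : G.IsHomogeneous d)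
    (hGm : ∀ i, G ∈ (Ideal.span ({MvPolynomial.X 0 - MvPolynomial.C (P i 0) * MvPolynomial.X 2,
          MvPolynomial.X 1 - MvPolynomial.C (P i 1) * MvPolynomial.X 2} :
            Set (MvPolynomial (Fin 3) L))) ^ (w i)) :
    ∑ i, (w i) ^ 2 < d ^ 2 := by
  by_contra hcon
  rw [not_lt] at hcon
  obtain ⟨h1, h3⟩ := near_arith2 (by omega) hm hw hcon
  have hnR : (20 : ℝ) ≤ n := by exact_mod_cast hn
  obtain ⟨s, hsdef⟩ : ∃ s, s = √(n : ℝ) := ⟨_, rfl⟩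
  have hs : s * s = n := by rw [hsdef]; exact Real.mul_self_sqrt (by linarith)
  have hs4 : 4.472 ≤ s := by rw [hsdef]; exact Real.le_sqrt_of_sq_le (by norm_num; linarith)
  have hExp : ExpDim L w P d := by
    rcases le_or_gt m 3 with hm4 | hm5
    · obtain ⟨F, hF, hF'⟩ := near_points (L := L) (n := n) (m := m) (by omega) hm hw
        (near_cond (by omega) hw (Or.inl (by
          have h1 : ((m + 1 : ℕ) : ℝ) ≤ 4 := by exact_mod_cast (by omega : m + 1 ≤ 4)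
          rw [← hsdef, ← hs]
          nlinarith)))
      exact hF' P (fun h0 => hF (hP.eq_zero_of_aeval_eq_zero F h0)) d
    · obtain ⟨F, hF, hF'⟩ := exp_near2 (L := L) (by omega : 10 ≤ n) hm hw
      refine hF' P (fun h0 => hF (hP.eq_zero_of_aeval_eq_zero F h0)) d (Or.inr (h3 ?_))
      have hm5R : (4 : ℝ) ≤ m := by exact_mod_cast hm5
      rw [← hsdef]
      have h4 : (n : ℝ) < 16 * (n - 11 / 3 * s - 9 / 4) := by
        rw [← hs]
        nlinarith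
      have h5 : 0 ≤ (n : ℝ) - 11 / 3 * s - 9 / 4 := by linarith
      nlinarith
  exact false_of_expDim hExp (choose_cond h1) hG hGd hGm

/-- multiplicities `m` and `m + 1` at `n ≥ 20` of the points -/
theorem near_T {s : ℕ} {P : Fin s → Fin 2 → ℂ}
    (hind : AlgebraicIndependent ℚ (fun q : Fin s × Fin 2 => P q.1 q.2))
    {d : ℕ} {μ : Fin s → ℕ} {F : MvPolynomial (Fin 3) ℂ} (hF : F ≠ 0) (hFd : F.IsHomogeneous d)
    (hm : ∀ i, F ∈ ptI (P i) ^ (μ i)) (T : Finset (Fin s)) (hT : 20 ≤ T.card) {m : ℕ}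
    (hm1 : 1 ≤ m) (hmm : ∀ i ∈ T, μ i = m ∨ μ i = m + 1) : ∑ i ∈ T, (μ i) ^ 2 < d ^ 2 := by
  classical
  obtain ⟨j, hj, hjT, hsum⟩ := on_T hind T
  have hmT : ∀ a, F ∈ (Ideal.span
      ({MvPolynomial.X 0 - MvPolynomial.C (P (j a) 0) * MvPolynomial.X 2,
          MvPolynomial.X 1 - MvPolynomial.C (P (j a) 1) * MvPolynomial.X 2} :
            Set (MvPolynomial (Fin 3) ℂ))) ^ (μ (j a)) := fun a => hm (j a)
  have h1 := near_pos2 (L := ℂ) (w := fun a => μ (j a)) (P := fun a => P (j a)) hT hm1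
    (fun a => hmm _ (hjT a)) hj hF hFd hmT
  have h2 : ((∑ a, (μ (j a)) ^ 2 : ℕ) : ℝ) < ((d ^ 2 : ℕ) : ℝ) := by exact_mod_cast h1
  have h3 : ((∑ i ∈ T, (μ i) ^ 2 : ℕ) : ℝ) < ((d ^ 2 : ℕ) : ℝ) := by
    push_cast at h2 ⊢
    rw [hsum (fun i => (μ i : ℝ) ^ 2)] at h2
    exact h2
  exact_mod_cast h3

end Pool.Agent.TH442.NM
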